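import Pool.Agent.H7.WSL.Unit
import Pool.Agent.H7.WSL.One

/-!
MP_7df7b8_gt, Q1: for every `n ≥ 2` the monoid `wSL_n^sc` of welded string links up to
self-crossing changes has a unit `u` such that no nonzero power of `u` is a welded pure braid.
For `n = 1` the monoid is trivial.
-/

namespace Pool.Agent.Results.MP_7df7b8_gt.UnitsSelfCrossing

open Pool.Agent.H7.WSL

/-- Negative answer to Q1 for welded string links up to self-crossing changes. -/
theorem result :
    (∀ n : ℕ, 2 ≤ n → ∃ u : (WSLsc n)ˣ, ∀ k : ℤ, k ≠ 0 →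
      ((u ^ k : (WSLsc n)ˣ) : WSLsc n) ∉ pureBraids n) ∧
    (∀ x : WSLsc 1, x ∈ pureBraids 1) := by
  constructor
  · intro n hn
    refine ⟨theUnit n hn, ?_⟩
    intro k hk hmem
    have h1 := valHom_pureBraids hmem
    rw [theUnit_zpow] at h1
    have h2 : (2 * k : ℤ) = 0 := congrArg Multiplicative.toAdd h1
    omega
  · intro x
    rw [wslsc_one x]
    exact one_mem_pureBraids 1

end Pool.Agent.Results.MP_7df7b8_gt.UnitsSelfCrossing
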